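import Pool.Agent.ATZ.Stmts2

/-!
Squad ATZ, row UWA: powers in abelian subgroups.
-/

set_option autoImplicit false

noncomputable section

namespace Pool.Agent.PP.TB.H77

open Pool.Agent.PP.T2

section ab

variable {G : Type} [Group G]

/-- the power map on an abelian subgroup -/
def ph (A : Subgroup G) (h : ∀ x ∈ A, ∀ y ∈ A, x * y = y * x) (n : ℕ) : A →* G where
  toFun x := (x : G) ^ n
  map_one' := by simp
  map_mul' x y := by
    have hc : Commute (x : G) (y : G) := h x x.2 y y.2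
    rw [Subgroup.coe_mul, hc.mul_pow]

theorem uw_eq (A : Subgroup G) (h : ∀ x ∈ A, ∀ y ∈ A, x * y = y * x) (n : ℕ) :
    Uw n A = (ph A h n).range := by
  apply le_antisymm
  · refine (Subgroup.closure_le _).2 ?_
    rintro _ ⟨v, hv, rfl⟩
    exact ⟨⟨v, hv⟩, rfl⟩
  · rintro _ ⟨v, rfl⟩
    exact Subgroup.subset_closure ⟨v, v.2, rfl⟩

theorem mem_uw {A : Subgroup G} (h : ∀ x ∈ A, ∀ y ∈ A, x * y = y * x) {n : ℕ} {x : G} :
    x ∈ Uw n A ↔ ∃ v ∈ A, x = v ^ n := by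
  rw [uw_eq A h n]
  constructor
  · rintro ⟨v, rfl⟩
    exact ⟨v, v.2, rfl⟩
  · rintro ⟨v, hv, rfl⟩
    exact ⟨⟨v, hv⟩, rfl⟩

theorem uw_le {A : Subgroup G} (h : ∀ x ∈ A, ∀ y ∈ A, x * y = y * x) (n : ℕ) : Uw n A ≤ A := by
  intro x hx
  obtain ⟨v, hv, rfl⟩ := (mem_uw h).1 hx
  exact A.pow_mem hv n

theorem card_uw [Finite G] (A : Subgroup G) (h : ∀ x ∈ A, ∀ y ∈ A, x * y = y * x) (n : ℕ) :
    Nat.card (ph A h n).ker * Nat.card (Uw n A) = Nat.card A := by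
  rw [uw_eq A h n, ← Subgroup.index_ker]
  exact Subgroup.card_mul_index _

theorem uw_mono {A B : Subgroup G} (h : B ≤ A) (n : ℕ) : Uw n B ≤ Uw n A :=
  Subgroup.closure_mono (Set.image_mono h)

theorem part1 [Finite G] {A : Subgroup G} (h : ∀ x ∈ A, ∀ y ∈ A, x * y = y * x)
    {B : Subgroup G} (hB : B ≤ A) (n : ℕ) :
    Nat.card B * Nat.card (Uw n A) ≤ Nat.card A * Nat.card (Uw n B) := by
  have h' : ∀ x ∈ B, ∀ y ∈ B, x * y = y * x := fun x hx y hy => h x (hB hx) y (hB hy)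
  have h1 := card_uw A h n
  have h2 := card_uw B h' n
  have h3 : Nat.card (ph B h' n).ker ≤ Nat.card (ph A h n).ker := by
    refine Nat.card_le_card_of_injective
      (fun x : (ph B h' n).ker => (⟨⟨(x : B), hB (x : B).2⟩, x.2⟩ : (ph A h n).ker)) ?_
    intro x y hxy
    apply Subtype.ext
    apply Subtype.ext
    exact congrArg (fun z : (ph A h n).ker => ((z : A) : G)) hxy
  rw [← h1, ← h2]
  calc Nat.card (ph B h' n).ker * Nat.card (Uw n B) * Nat.card (Uw n A)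
      ≤ Nat.card (ph A h n).ker * Nat.card (Uw n B) * Nat.card (Uw n A) :=
        Nat.mul_le_mul_right _ (Nat.mul_le_mul_right _ h3)
    _ = Nat.card (ph A h n).ker * Nat.card (Uw n A) * Nat.card (Uw n B) := by ring

theorem uw_uw {A : Subgroup G} (h : ∀ x ∈ A, ∀ y ∈ A, x * y = y * x) (m n : ℕ) :
    Uw n (Uw m A) = Uw (m * n) A := by
  have h' : ∀ x ∈ Uw m A, ∀ y ∈ Uw m A, x * y = y * x := fun x hx y hy =>
    h x (uw_le h m hx) y (uw_le h m hy)
  ext x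
  rw [mem_uw h', mem_uw h]
  constructor
  · rintro ⟨v, hv, rfl⟩
    obtain ⟨a, ha, rfl⟩ := (mem_uw h).1 hv
    exact ⟨a, ha, (pow_mul a m n).symm⟩
  · rintro ⟨a, ha, rfl⟩
    exact ⟨a ^ m, (mem_uw h).2 ⟨a, ha, rfl⟩, pow_mul a m n⟩

theorem uw_one {A : Subgroup G} (h : ∀ x ∈ A, ∀ y ∈ A, x * y = y * x) : Uw 1 A = A := by
  ext x
  rw [mem_uw h]
  constructor
  · rintro ⟨a, ha, rfl⟩
    rw [pow_one]
    exact ha
  · intro hx
    exact ⟨x, hx, (pow_one x).symm⟩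

theorem part2 [Finite G] {A : Subgroup G} (h : ∀ x ∈ A, ∀ y ∈ A, x * y = y * x) (l r k : ℕ)
    (hA : Nat.card A ≤ l ^ r * Nat.card (Uw l A)) :
    Nat.card A ≤ l ^ (r * k) * Nat.card (Uw (l ^ k) A) := by
  induction k with
  | zero => rw [mul_zero, pow_zero, one_mul, uw_one h]
  | succ k ih =>
    have h1 := part1 h (uw_le h (l ^ k)) l
    rw [uw_uw h, ← pow_succ] at h1
    have h2 : Nat.card (Uw (l ^ k) A) * Nat.card (Uw l A) ≤
        l ^ r * Nat.card (Uw (l ^ (k + 1)) A) * Nat.card (Uw l A) := by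
      refine h1.trans ((Nat.mul_le_mul_right _ hA).trans (le_of_eq ?_))
      ring
    have h3 := Nat.le_of_mul_le_mul_right h2 Nat.card_pos
    calc Nat.card A ≤ l ^ (r * k) * Nat.card (Uw (l ^ k) A) := ih
      _ ≤ l ^ (r * k) * (l ^ r * Nat.card (Uw (l ^ (k + 1)) A)) := Nat.mul_le_mul_left _ h3
      _ = l ^ (r * (k + 1)) * Nat.card (Uw (l ^ (k + 1)) A) := by
          rw [← mul_assoc, ← pow_add, mul_add, mul_one]

end ab

theorem uwa : UwaStmt := by
  intro G _ _ A h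
  exact ⟨fun B hB n => part1 h hB n, fun l r k hA => part2 h l r k hA,
    fun B hB n => uw_mono hB n⟩

end Pool.Agent.PP.TB.H77
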